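import Pool.Agent.Run7.h371.TB.Iface

/-! helper569: pieces InnerCauchy, KeySplit, KeyLim of project TB (helper371). -/

set_option autoImplicit false

namespace Run7.h569

open Run7.h371.TB
open Complex MeasureTheory Filter Topology Set Metric

theorem norm_u (t : ℝ) : ‖u t‖ = 1 := by
  unfold u
  exact Complex.norm_exp_ofReal_mul_I t

theorem norm_w {ρ : ℝ → ℝ} (t : ℝ) (h : 0 ≤ ρ t) : ‖w ρ t‖ = ρ t := by
  unfold w
  rw [norm_mul, norm_u, mul_one, Complex.norm_real, Real.norm_of_nonneg h]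

theorem cont_u : Continuous u := by
  unfold u
  fun_prop

theorem cont_w {ρ : ℝ → ℝ} (h : Adm ρ) : Continuous (w ρ) := by
  obtain ⟨L, hL⟩ := h.lip
  unfold w
  exact (Complex.continuous_ofReal.comp hL.continuous).mul cont_u

theorem adm_pos {ρ : ℝ → ℝ} (h : Adm ρ) (t : ℝ) : 0 < ρ t := by
  have := h.half t
  linarith

theorem meas_kappa {ρ : ℝ → ℝ} (h : Adm ρ) : Measurable (κ ρ) := by
  obtain ⟨L, hL⟩ := h.lip
  unfold κ
  exact measurable_const.add
    (Complex.measurable_ofReal.comp ((measurable_deriv ρ).div hL.continuous.measurable))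

theorem bd_kappa {ρ : ℝ → ℝ} (h : Adm ρ) : ∃ K : ℝ, 0 ≤ K ∧ ∀ t, ‖κ ρ t‖ ≤ K := by
  obtain ⟨L, hL⟩ := h.lip
  refine ⟨1 + L * 2, by positivity, fun t => ?_⟩
  unfold κ
  refine (norm_add_le _ _).trans ?_
  rw [Complex.norm_I, Complex.norm_real, norm_div]
  have h1 : ‖deriv ρ t‖ ≤ L := norm_deriv_le_of_lipschitz hL
  have h2 : (1 : ℝ) / 2 ≤ ‖ρ t‖ := by
    rw [Real.norm_of_nonneg (adm_pos h t).le]
    exact h.half t
  have h3 : ‖deriv ρ t‖ / ‖ρ t‖ ≤ L * 2 := by
    rw [div_le_iff₀ (by linarith)]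
    have : (0 : ℝ) ≤ L := L.2
    nlinarith
  linarith

/-- continuity of `T` along maps into a smaller disc -/
theorem T_contOn {X : Type} [TopologicalSpace X] (a : ℕ → ℂ) (C : ℝ) (hC : ∀ n, ‖a n‖ ≤ C) (n : ℕ)
    (f : X → ℂ) (A : Set X) (hf : ContinuousOn f A) (r : ℝ) (hr0 : 0 ≤ r) (hr : r < 1)
    (hfr : ∀ x ∈ A, ‖f x‖ ≤ r) : ContinuousOn (fun x => T a n (f x)) A := by
  unfold T
  refine continuousOn_tsum (u := fun j => C * r ^ j) (fun j => continuousOn_const.mul (hf.pow j))
    ((summable_geometric_of_lt_one hr0 hr).mul_left C) ?_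
  intro j x hx
  rw [norm_mul, norm_pow]
  exact mul_le_mul (hC _) (pow_le_pow_left₀ (norm_nonneg _) (hfr x hx) _) (by positivity)
    ((norm_nonneg _).trans (hC 0))

theorem t_InnerCauchy : InnerCauchy := by
  intro hFTC a C hC ρ hρ hρ1 s hs0 hs1 n
  obtain ⟨K, hK0, hK⟩ := bd_kappa hρ
  have hC0 : 0 ≤ C := (norm_nonneg _).trans (hC 0)
  obtain ⟨h1, h0⟩ := hFTC ρ hρ
  have hz : ∀ t, ‖(s : ℂ) * w ρ t‖ ≤ s := by
    intro t
    rw [norm_mul, norm_w t (adm_pos hρ t).le, Complex.norm_real, Real.norm_of_nonneg hs0.le]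
    have := hρ1 t
    nlinarith
  have hsum := intervalIntegral.hasSum_integral_of_dominated_convergence (μ := volume)
    (a := (0 : ℝ)) (b := 2 * Real.pi)
    (F := fun (j : ℕ) (t : ℝ) => a (n + j) * ((s : ℂ) * w ρ t) ^ j * κ ρ t)
    (f := fun t => T a n ((s : ℂ) * w ρ t) * κ ρ t)
    (fun (j : ℕ) (_ : ℝ) => C * s ^ j * K) ?_ ?_ ?_ ?_ ?_
  · have hval : ∀ j : ℕ, ∫ t in (0 : ℝ)..(2 * Real.pi), a (n + j) * ((s : ℂ) * w ρ t) ^ j * κ ρ t =
        if j = 0 then 2 * Real.pi * I * a n else 0 := by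
      intro j
      split_ifs with hj
      · subst hj
        simp only [add_zero, pow_zero, mul_one]
        rw [intervalIntegral.integral_const_mul, h0]
        ring
      · have e : ∀ t, a (n + j) * ((s : ℂ) * w ρ t) ^ j * κ ρ t =
            (a (n + j) * (s : ℂ) ^ j) * (w ρ t ^ (j : ℤ) * κ ρ t) := by
          intro t
          rw [mul_pow, zpow_natCast]
          ring
        simp only [e]
        rw [intervalIntegral.integral_const_mul, h1 j (by exact_mod_cast hj), mul_zero]
    have h2 : HasSum (fun j : ℕ => ∫ t in (0 : ℝ)..(2 * Real.pi),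
        a (n + j) * ((s : ℂ) * w ρ t) ^ j * κ ρ t) (2 * Real.pi * I * a n) := by
      have : (fun j : ℕ => ∫ t in (0 : ℝ)..(2 * Real.pi),
          a (n + j) * ((s : ℂ) * w ρ t) ^ j * κ ρ t) =
          fun j : ℕ => if j = 0 then 2 * Real.pi * I * a n else 0 := funext hval
      rw [this]
      exact hasSum_ite_eq 0 _
    exact hsum.unique h2
  · intro j
    refine AEStronglyMeasurable.mul ?_ (meas_kappa hρ).aestronglyMeasurable
    exact (continuous_const.mul ((continuous_const.mul (cont_w hρ)).pow j)).aestronglyMeasurable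
  · intro j
    filter_upwards with t _
    rw [norm_mul, norm_mul, norm_pow]
    have h3 : ‖a (n + j)‖ * ‖(s : ℂ) * w ρ t‖ ^ j ≤ C * s ^ j :=
      mul_le_mul (hC _) (pow_le_pow_left₀ (norm_nonneg _) (hz t) _) (by positivity) hC0
    exact mul_le_mul h3 (hK t) (norm_nonneg _) (by positivity)
  · filter_upwards with t _
    exact ((summable_geometric_of_lt_one hs0.le hs1).mul_left C).mul_right K
  · exact intervalIntegrable_const
  · filter_upwards with t _
    refine HasSum.mul_right (κ ρ t) ?_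
    unfold T
    refine Summable.hasSum ?_
    refine Summable.of_norm_bounded (g := fun j => C * s ^ j)
      ((summable_geometric_of_lt_one hs0.le hs1).mul_left C) ?_
    intro j
    rw [norm_mul, norm_pow]
    exact mul_le_mul (hC _) (pow_le_pow_left₀ (norm_nonneg _) (hz t) _) (by positivity) hC0

/-- splitting of an integral over the period -/
theorem split_int {E : Set ℂ} (hA : MeasurableSet (NE E))
    (hd : Disjoint (AE E) (NE E)) (hU : AE E ∪ NE E = Ioc 0 (2 * Real.pi)) (g k : ℝ → ℂ)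
    (hg : Continuous g) (hk : Measurable k) (hkb : ∀ t, ‖k t‖ ≤ 2) :
    ∫ t in (0 : ℝ)..(2 * Real.pi), g t * k t = (∫ t in AE E, g t * k t) + ∫ t in NE E, g t * k t := by
  have hint : IntegrableOn (fun t => g t * k t) (Ioc 0 (2 * Real.pi)) := by
    have h1 : IntegrableOn g (Ioc 0 (2 * Real.pi)) := hg.integrableOn_Ioc
    refine Integrable.mono' (h1.norm.mul_const 2) ?_ ?_
    · exact hg.aestronglyMeasurable.mul hk.aestronglyMeasurable
    · filter_upwards with t
      rw [norm_mul]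
      exact mul_le_mul_of_nonneg_left (hkb t) (norm_nonneg _)
  rw [intervalIntegral.integral_of_le (by positivity), ← hU,
    setIntegral_union hd hA (hint.mono_set (by rw [← hU]; exact subset_union_left))
      (hint.mono_set (by rw [← hU]; exact subset_union_right))]

theorem t_KeySplit : KeySplit := by
  intro hI hO hF hCF a E C hC hcl hne hci σ hσ0 hσ n
  obtain ⟨ham, hap, hr1, hmA, hmN, hdis, hun, hval, hkb, hkm, hkp, hwm, hwp, -, -⟩ :=
    hCF E hcl hne hci σ hσ0 hσ
  constructor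
  · intro s hs0 hs1
    have hz : ∀ t, ‖(s : ℂ) * w (rad E (-σ)) t‖ ≤ s := by
      intro t
      rw [norm_mul, norm_w t (adm_pos ham t).le, Complex.norm_real, Real.norm_of_nonneg hs0.le]
      have := hr1 t
      nlinarith
    have hcont : Continuous (fun t => T a n ((s : ℂ) * w (rad E (-σ)) t)) := by
      rw [← continuousOn_univ]
      exact T_contOn a C hC n _ _ (continuous_const.mul hwm).continuousOn s hs0.le hs1
        (fun t _ => hz t)
    have h1 := hI hF a C hC (rad E (-σ)) ham hr1 s hs0 hs1 n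
    rw [split_int hmN hdis hun _ _ hcont hkm (fun t => (hkb t).1)] at h1
    rw [← h1]
    congr 1
    rw [← integral_const_mul]
    refine setIntegral_congr_fun hmA fun t ht => ?_
    obtain ⟨e1, -, e3, -⟩ := hval t ht
    simp only [e1, e3]
    ring
  · have hne0 : ∀ t, w (rad E σ) t ≠ 0 := by
      intro t h
      have h2 := norm_w t (adm_pos hap t).le
      rw [h, norm_zero] at h2
      exact (adm_pos hap t).ne h2
    have hcont : Continuous (fun t => Q a n (w (rad E σ) t)) := by
      unfold Q S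
      refine ((hwp.pow n).inv₀ fun t => pow_ne_zero n (hne0 t)).mul ?_
      exact continuous_finset_sum _ fun j _ => continuous_const.mul (hwp.pow j)
    have h1 := hO hF a (rad E σ) hap n
    rw [split_int hmN hdis hun _ _ hcont hkp (fun t => (hkb t).2)] at h1
    rw [← h1]
    congr 1
    rw [← integral_const_mul]
    refine setIntegral_congr_fun hmA fun t ht => ?_
    obtain ⟨-, e2, -, e4⟩ := hval t ht
    simp only [e2, e4, Q]
    ring

theorem t_KeyLim : KeyLim := by
  intro hAb hTB hCF a E M hD σ hσ0 hσ n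
  obtain ⟨ham, hap, hr1, hmA, hmN, hdis, hun, hval, hkb, hkm, hkp, hwm, hwp, hN, hnear⟩ :=
    hCF E hD.closed hD.ne hD.circ σ hσ0 hσ
  obtain ⟨hC, hM, hT, -⟩ := hTB hAb a E M hD
  have hfin : volume (NE E) < ⊤ := by
    have h1 : NE E ⊆ Ioc 0 (2 * Real.pi) := by rw [← hun]; exact subset_union_right
    exact lt_of_le_of_lt (measure_mono h1) measure_Ioc_lt_top
  have hev : ∀ᶠ s in 𝓝[<] (1 : ℝ), s ∈ Ioo (0 : ℝ) 1 := Ioo_mem_nhdsLT one_pos
  have hz : ∀ s ∈ Ioo (0 : ℝ) 1, ∀ t, ‖(s : ℂ) * w (rad E (-σ)) t‖ ≤ s := by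
    intro s hs t
    rw [norm_mul, norm_w t (adm_pos ham t).le, Complex.norm_real, Real.norm_of_nonneg hs.1.le]
    have := hr1 t
    have := hs.1
    nlinarith
  refine tendsto_integral_filter_of_dominated_convergence
    (fun _ => 2 * M * (1 + 1 / σ) * 2) ?_ ?_ ?_ ?_
  · filter_upwards [hev] with s hs
    have hcont : Continuous (fun t => T a n ((s : ℂ) * w (rad E (-σ)) t)) := by
      rw [← continuousOn_univ]
      exact T_contOn a _ hC n _ _ (continuous_const.mul hwm).continuousOn s hs.1.le hs.2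
        (fun t _ => hz s hs t)
    exact hcont.aestronglyMeasurable.mul hkm.aestronglyMeasurable
  · filter_upwards [hev] with s hs
    filter_upwards with t
    rw [norm_mul]
    obtain ⟨α, hα, h1, -⟩ := hnear t
    have h2 := h1 s hs.1 hs.2.le
    have h3 : ‖(s : ℂ) * w (rad E (-σ)) t‖ < 1 := lt_of_le_of_lt (hz s hs t) hs.2
    have h4 := hT n α hα _ h3
    have h5 : 0 < 1 - ‖(s : ℂ) * w (rad E (-σ)) t‖ := by linarith
    have h6 : ‖T a n ((s : ℂ) * w (rad E (-σ)) t)‖ ≤ 2 * M * (1 + 1 / σ) := by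
      refine h4.trans ?_
      rw [div_le_iff₀ h5]
      calc 2 * M * ‖(s : ℂ) * w (rad E (-σ)) t - α‖
          ≤ 2 * M * ((1 + 1 / σ) * (1 - ‖(s : ℂ) * w (rad E (-σ)) t‖)) :=
            mul_le_mul_of_nonneg_left h2 (by positivity)
        _ = _ := by ring
    exact mul_le_mul h6 (hkb t).1 (norm_nonneg _) (by positivity)
  · exact integrableOn_const hfin.ne
  · rw [ae_restrict_iff' hmN]
    filter_upwards with t ht
    refine Tendsto.mul_const _ ?_
    obtain ⟨-, hlt, -⟩ := hN t ht
    have hc : ContinuousOn (fun s : ℝ => T a n ((s : ℂ) * w (rad E (-σ)) t)) (Icc 0 1) := by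
      refine T_contOn a _ hC n _ _ ?_ ‖w (rad E (-σ)) t‖ (norm_nonneg _) hlt ?_
      · exact (Complex.continuous_ofReal.mul continuous_const).continuousOn
      · intro s hs
        rw [norm_mul, Complex.norm_real, Real.norm_of_nonneg hs.1]
        exact mul_le_of_le_one_left (norm_nonneg _) hs.2
    have h1 := (hc 1 ⟨zero_le_one, le_rfl⟩).tendsto
    simp only [Complex.ofReal_one, one_mul] at h1
    refine h1.mono_left ?_
    rw [nhdsWithin, nhdsWithin]
    have h2 : (𝓝[<] (1 : ℝ)) ≤ 𝓝[Icc 0 1] 1 := by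
      refine le_inf nhdsWithin_le_nhds ?_
      rw [le_principal_iff]
      filter_upwards [hev] with s hs
      exact ⟨hs.1.le, hs.2.le⟩
    exact h2

end Run7.h569
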